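import Mathlib
import Pool.Agent.H916R2.OddChar

/-!
# The first generalised Bernoulli number of a primitive odd character: it is not zero, and a bound
-/

set_option autoImplicit false

open Finset

namespace Pool.Agent.Run7.h97.GB

open Pool.Agent.H916R2 (saw SS saw_zero exists_SS_ne_zero)

lemma parseval (f : ℕ) [NeZero f] (Φ : ZMod f → ℂ) :
    ∑ n : ZMod f, ‖∑ a : ZMod f, Φ a * ZMod.stdAddChar (n * a)‖ ^ 2 =
      f * ∑ a : ZMod f, ‖Φ a‖ ^ 2 := by
  have key : ∑ n : ZMod f, (∑ a : ZMod f, Φ a * ZMod.stdAddChar (n * a)) *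
      (starRingEnd ℂ) (∑ a : ZMod f, Φ a * ZMod.stdAddChar (n * a)) =
      f * ∑ a : ZMod f, Φ a * (starRingEnd ℂ) (Φ a) := by
    simp_rw [map_sum, Finset.sum_mul_sum]
    rw [Finset.sum_comm]
    rw [Finset.mul_sum]
    apply Finset.sum_congr rfl
    intro a _
    rw [Finset.sum_comm]
    have h1 : ∀ b : ZMod f, ∑ n : ZMod f, Φ a * ZMod.stdAddChar (n * a) *
        (starRingEnd ℂ) (Φ b * ZMod.stdAddChar (n * b)) =
        Φ a * (starRingEnd ℂ) (Φ b) * if a = b then (f : ℂ) else 0 := by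
      intro b
      have h2 : ∀ n : ZMod f, Φ a * ZMod.stdAddChar (n * a) *
        (starRingEnd ℂ) (Φ b * ZMod.stdAddChar (n * b)) =
        Φ a * (starRingEnd ℂ) (Φ b) * ZMod.stdAddChar (n * (a - b)) := by
        intro n
        rw [(starRingEnd ℂ).map_mul, ← AddChar.map_neg_eq_conj, mul_sub, sub_eq_add_neg,
          AddChar.map_add_eq_mul]
        ring
      simp_rw [h2]
      rw [← Finset.mul_sum, AddChar.sum_mulShift (a - b) (ZMod.isPrimitive_stdAddChar f)]
      simp [sub_eq_zero]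
    simp_rw [h1]
    simp
    ring
  have e1 : ∀ z : ℂ, z * (starRingEnd ℂ) z = ((‖z‖ ^ 2 : ℝ) : ℂ) := by
    intro z
    rw [Complex.mul_conj, Complex.normSq_eq_norm_sq]
  simp_rw [e1] at key
  exact_mod_cast key

lemma norm_char (f : ℕ) [NeZero f] (χ : DirichletCharacter ℂ f) (a : ZMod f) :
    ‖χ a‖ = if IsUnit a then 1 else 0 := by
  split_ifs with h
  · obtain ⟨u, rfl⟩ := h
    exact χ.unit_norm_eq_one u
  · rw [χ.map_nonunit h, norm_zero]

lemma sum_norm_char (f : ℕ) [NeZero f] (χ : DirichletCharacter ℂ f) :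
    ∑ a : ZMod f, ‖χ a‖ ^ 2 = Nat.totient f := by
  classical
  simp_rw [norm_char]
  have : ∀ a : ZMod f, ((if IsUnit a then (1:ℝ) else 0) ^ 2) = if IsUnit a then 1 else 0 := by
    intro a; split_ifs <;> simp
  simp_rw [this]
  rw [Finset.sum_boole, ← ZMod.card_units_eq_totient f]
  congr 1
  symm
  apply Finset.card_bij (fun (a : (ZMod f)ˣ) _ => (a : ZMod f))
  · intro a _; simp
  · intro a _ b _ hab; exact Units.ext hab
  · intro b hb
    rw [Finset.mem_filter] at hb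
    exact ⟨hb.2.unit, Finset.mem_univ _, rfl⟩

lemma gauss_shift {f : ℕ} [NeZero f] {χ : DirichletCharacter ℂ f} (hχ : χ.IsPrimitive)
    (n : ZMod f) : ∑ a : ZMod f, χ a * ZMod.stdAddChar (n * a) =
      χ⁻¹ n * gaussSum χ (ZMod.stdAddChar : AddChar (ZMod f) ℂ) := by
  rw [← gaussSum_mulShift_of_isPrimitive _ hχ n]
  rfl

lemma norm_sq_gaussSum {f : ℕ} [NeZero f] {χ : DirichletCharacter ℂ f} (hχ : χ.IsPrimitive) :
    ‖gaussSum χ (ZMod.stdAddChar : AddChar (ZMod f) ℂ)‖ ^ 2 = f := by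
  have h := parseval f (fun a => χ a)
  rw [sum_norm_char] at h
  simp_rw [gauss_shift hχ, norm_mul, mul_pow] at h
  rw [← Finset.sum_mul, sum_norm_char, mul_comm] at h
  have h0 : (Nat.totient f : ℝ) ≠ 0 := by
    have := Nat.totient_pos.mpr (NeZero.pos f)
    positivity
  exact mul_right_cancel₀ h0 h

section

variable {M : ℕ} [hM : NeZero M]

/-- the Fourier transform of the sawtooth -/
noncomputable def gg (k : ZMod M) : ℂ := ∑ b : ZMod M, (saw b : ℂ) * ZMod.stdAddChar (-(k * b))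

lemma inversion (b : ZMod M) :
    (M : ℂ) * (saw b : ℂ) = ∑ k : ZMod M, gg k * ZMod.stdAddChar (k * b) := by
  unfold gg
  simp_rw [sum_mul]
  rw [sum_comm]
  have h1 : ∀ c : ZMod M, ∑ k : ZMod M, (saw c : ℂ) * ZMod.stdAddChar (-(k * c)) *
      ZMod.stdAddChar (k * b) = (saw c : ℂ) * if b = c then (M : ℂ) else 0 := by
    intro c
    have h2 : ∀ k : ZMod M, (saw c : ℂ) * ZMod.stdAddChar (-(k * c)) * ZMod.stdAddChar (k * b) =
        (saw c : ℂ) * ZMod.stdAddChar (k * (b - c)) := by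
      intro k
      rw [mul_assoc, ← AddChar.map_add_eq_mul]
      congr 2
      ring
    simp_rw [h2]
    rw [← mul_sum, AddChar.sum_mulShift (b - c) (ZMod.isPrimitive_stdAddChar M)]
    simp [sub_eq_zero]
  rw [sum_congr rfl fun c _ => h1 c]
  simp [mul_comm]

/-- the sum `∑ χ(t) (2t - M)` -/
noncomputable def Sw (χ : DirichletCharacter ℂ M) : ℂ := ∑ t : ZMod M, χ t * (saw t : ℂ)

lemma sum_units (χ : DirichletCharacter ℂ M) (f : ZMod M → ℂ) :
    ∑ t : (ZMod M)ˣ, χ (t : ZMod M) * f t = ∑ t : ZMod M, χ t * f t := by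
  classical
  rw [← sum_subset (subset_univ (univ.filter (fun k : ZMod M => IsUnit k)))]
  · refine sum_bij (fun t _ => (t : ZMod M)) ?_ ?_ ?_ ?_
    · intro t _; rw [mem_filter]; exact ⟨mem_univ _, t.isUnit⟩
    · intro t _ t' _ h; exact Units.ext h
    · intro k hk
      rw [mem_filter] at hk
      obtain ⟨t, rfl⟩ := hk.2
      exact ⟨t, mem_univ _, rfl⟩
    · intro t _; rfl
  · intro k _ hk
    rw [mem_filter] at hk
    push Not at hk
    rw [χ.map_nonunit (hk (mem_univ _)), zero_mul]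

lemma SS_expand {χ : DirichletCharacter ℂ M} (hχ : χ.IsPrimitive) (a : ZMod M) :
    (M : ℂ) * ∑ t : ZMod M, χ t * (saw (t * a) : ℂ) =
      χ⁻¹ a * ∑ k : ZMod M, gg k * (χ⁻¹ k * gaussSum χ (ZMod.stdAddChar : AddChar (ZMod M) ℂ)) := by
  rw [mul_sum]
  have h1 : ∀ t : ZMod M, (M : ℂ) * (χ t * (saw (t * a) : ℂ)) =
      ∑ k : ZMod M, gg k * (χ t * ZMod.stdAddChar (k * a * t)) := by
    intro t
    rw [mul_left_comm, inversion, mul_sum]
    apply sum_congr rfl
    intro k _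
    rw [mul_left_comm]
    congr 3
    ring
  rw [sum_congr rfl fun t _ => h1 t, sum_comm, mul_sum]
  apply sum_congr rfl
  intro k _
  rw [← mul_sum, gauss_shift hχ, map_mul]
  ring

/-- the first Bernoulli number of a primitive odd character is not zero -/
theorem Sw_ne {χ : DirichletCharacter ℂ M} (hχ : χ.IsPrimitive) (ho : χ.Odd) : Sw χ ≠ 0 := by
  obtain ⟨a, ha⟩ := exists_SS_ne_zero χ ho
  intro h0
  apply ha
  have hM0 : (M : ℂ) ≠ 0 := Nat.cast_ne_zero.mpr (NeZero.ne M)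
  have h1 : SS χ a = ∑ t : ZMod M, χ t * (saw (t * a) : ℂ) := by
    unfold SS
    exact sum_units χ (fun t => (saw (t * a) : ℂ))
  have h2 := SS_expand hχ a
  have h3 := SS_expand hχ 1
  rw [map_one, one_mul] at h3
  have h4 : ∑ t : ZMod M, χ t * (saw (t * 1) : ℂ) = Sw χ := by
    unfold Sw; simp
  rw [h4, h0, mul_zero] at h3
  rw [← h3, mul_zero] at h2
  rw [h1]
  exact (mul_eq_zero.mp h2).resolve_left hM0

end

end Pool.Agent.Run7.h97.GB
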