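import Mathlib
import Pool.Agent.Run7.h97.GB.Saw

/-!
# The bound for the first generalised Bernoulli number
-/

set_option autoImplicit false

open Finset

namespace Pool.Agent.Run7.h97.GB

open Pool.Agent.H916R2 (saw SS saw_zero)

lemma sum_mul_pow (z : ℂ) (N : ℕ) :
    (z - 1) * ∑ n ∈ range (N + 1), (n : ℂ) * z ^ n = N * z ^ (N + 1) - ∑ n ∈ range N, z ^ (n + 1) := by
  induction N with
  | zero => simp
  | succ N ih =>
    rw [sum_range_succ, mul_add, ih, sum_range_succ]
    push_cast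
    ring

lemma cos_le {y : ℝ} (h0 : 0 < y) (h1 : y < Real.pi) :
    |Real.cos y| ≤ |Real.sin y| * (1 / y + 1 / (Real.pi - y)) := by
  have hs : 0 < Real.sin y := Real.sin_pos_of_pos_of_lt_pi h0 h1
  have key : ∀ x : ℝ, 0 < x → x ≤ Real.pi / 2 → |Real.cos x| ≤ |Real.sin x| * (1 / x) := by
    intro x hx0 hx1
    have hsx : 0 < Real.sin x := Real.sin_pos_of_pos_of_lt_pi hx0 (by linarith [Real.pi_pos])
    rcases hx1.lt_or_eq with h | h
    · have hc : 0 < Real.cos x := Real.cos_pos_of_mem_Ioo ⟨by linarith, h⟩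
      have h2 := Real.le_tan hx0.le h
      rw [Real.tan_eq_sin_div_cos, le_div_iff₀ hc] at h2
      rw [abs_of_pos hc, abs_of_pos hsx, mul_one_div, le_div_iff₀ hx0]
      linarith
    · rw [h, Real.cos_pi_div_two, abs_zero]
      positivity
  rcases le_or_gt y (Real.pi / 2) with h | h
  · have h2 := key y h0 h
    have h3 : 0 ≤ 1 / (Real.pi - y) := by
      have : 0 < Real.pi - y := by linarith
      positivity
    have h4 : 0 ≤ |Real.sin y| * (1 / (Real.pi - y)) := mul_nonneg (abs_nonneg _) h3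
    rw [mul_add]
    linarith
  · have h2 := key (Real.pi - y) (by linarith) (by linarith)
    rw [Real.cos_pi_sub, Real.sin_pi_sub, abs_neg] at h2
    have h3 : 0 ≤ 1 / y := by positivity
    have h4 : 0 ≤ |Real.sin y| * (1 / y) := mul_nonneg (abs_nonneg _) h3
    rw [mul_add]
    linarith

lemma norm_ratio {y : ℝ} (h0 : 0 < y) (h1 : y < Real.pi) (z : ℂ)
    (hz : z = Complex.exp (-(2 * y * Complex.I))) :
    ‖z + 1‖ ≤ ‖z - 1‖ * (1 / y + 1 / (Real.pi - y)) := by
  have hs : 0 < Real.sin y := Real.sin_pos_of_pos_of_lt_pi h0 h1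
  set w : ℂ := Complex.exp (-(y * Complex.I)) with hw
  have hww : z = w * w := by
    rw [hz, hw, ← Complex.exp_add]; congr 1; ring
  have e1 : Complex.exp (y * Complex.I) * w = 1 := by
    rw [hw, ← Complex.exp_add]; simp
  have e2 : z + 1 = w * (2 * Complex.cos y) := by
    rw [hww, Complex.cos, ← e1]
    have : -(y : ℂ) * Complex.I = -(y * Complex.I) := by ring
    rw [this, ← hw]
    ring
  have e3 : z - 1 = w * (-(2 * Complex.I) * Complex.sin y) := by
    rw [hww, Complex.sin, ← e1]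
    have : -(y : ℂ) * Complex.I = -(y * Complex.I) := by ring
    rw [this, ← hw]
    have hI : Complex.I * Complex.I = -1 := Complex.I_mul_I
    linear_combination (w * (w - Complex.exp (y * Complex.I))) * hI
  have hc : ‖(2 * Complex.cos y : ℂ)‖ = 2 * |Real.cos y| := by
    rw [← Complex.ofReal_cos, norm_mul, Complex.norm_real, Real.norm_eq_abs]
    norm_num
  have hsn : ‖(-(2 * Complex.I) * Complex.sin y : ℂ)‖ = 2 * |Real.sin y| := by
    rw [← Complex.ofReal_sin, norm_mul, Complex.norm_real, Real.norm_eq_abs]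
    simp
  rw [e2, e3, norm_mul w, norm_mul w, hc, hsn]
  have := cos_le h0 h1
  have hw0 : 0 ≤ ‖w‖ := norm_nonneg _
  calc ‖w‖ * (2 * |Real.cos y|) ≤ ‖w‖ * (2 * (|Real.sin y| * (1 / y + 1 / (Real.pi - y)))) := by
        gcongr
    _ = _ := by ring

variable {M : ℕ} [hM : NeZero M]

lemma std_pow (k b : ZMod M) : (ZMod.stdAddChar (-(k * b)) : ℂ) = (ZMod.stdAddChar (-k)) ^ b.val := by
  rw [← AddChar.map_nsmul_eq_pow, nsmul_eq_mul]
  congr 1
  rw [ZMod.natCast_val, ZMod.cast_id]
  ring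

lemma gg_eq {k : ZMod M} (hk : k ≠ 0) :
    (ZMod.stdAddChar (-k) - 1 : ℂ) * gg k = M * (ZMod.stdAddChar (-k) + 1) := by
  set z : ℂ := ZMod.stdAddChar (-k) with hz
  have hM1 : 1 ≤ M := NeZero.pos M
  have hz1 : z ≠ 1 := by
    intro h
    have h2 : (ZMod.stdAddChar (-k) : ℂ) = ZMod.stdAddChar (0 : ZMod M) := by
      rw [AddChar.map_zero_eq_one]; exact h
    have h3 := ZMod.injective_stdAddChar h2
    exact hk (neg_eq_zero.mp h3)
  have hzM : z ^ M = 1 := by
    rw [hz, ← AddChar.map_nsmul_eq_pow, nsmul_eq_mul, ZMod.natCast_self, zero_mul,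
      AddChar.map_zero_eq_one]
  have hgeom : ∑ n ∈ range M, z ^ n = 0 := by
    have := mul_geom_sum z M
    rw [hzM, sub_self] at this
    exact (mul_eq_zero.mp this).resolve_left (sub_ne_zero.mpr hz1)
  have h1 : gg k = ∑ n ∈ range M, (2 * (n : ℂ) - M) * z ^ n + M := by
    unfold gg
    have h2 : ∀ b : ZMod M, (saw b : ℂ) * ZMod.stdAddChar (-(k * b)) =
        (2 * (b.val : ℂ) - M) * z ^ b.val + if b = 0 then (M : ℂ) else 0 := by
      intro b
      rw [std_pow]
      unfold saw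
      split_ifs with hb
      · rw [hb]; simp
      · push_cast; ring
    rw [sum_congr rfl fun b _ => h2 b, sum_add_distrib]
    congr 1
    · apply sum_nbij' (fun b : ZMod M => b.val) (fun n : ℕ => (n : ZMod M))
      · intro b _; rw [mem_range]; exact ZMod.val_lt b
      · intro n _; exact mem_univ _
      · intro b _; simp
      · intro n hn; rw [mem_range] at hn; exact ZMod.val_cast_of_lt hn
      · intro b _; rfl
    · simp
  have h3 : ∑ n ∈ range M, (2 * (n : ℂ) - M) * z ^ n = 2 * ∑ n ∈ range M, (n : ℂ) * z ^ n := by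
    have : ∀ n : ℕ, (2 * (n : ℂ) - M) * z ^ n = 2 * ((n : ℂ) * z ^ n) - M * z ^ n := by
      intro n; ring
    rw [sum_congr rfl fun n _ => this n, sum_sub_distrib, ← mul_sum, ← mul_sum, hgeom, mul_zero,
      sub_zero]
  obtain ⟨L, hL⟩ : ∃ L, M = L + 1 := ⟨M - 1, by omega⟩
  have h4 : (z - 1) * ∑ n ∈ range M, (n : ℂ) * z ^ n = M := by
    have h5 := sum_mul_pow z L
    rw [← hL] at h5
    rw [h5, hzM]
    have h6 : ∑ n ∈ range L, z ^ (n + 1) = -1 := by
      have h7 := sum_range_succ' (fun n => z ^ n) L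
      rw [← hL, hgeom] at h7
      simp only [pow_zero] at h7
      linear_combination -h7
    rw [h6, hL]
    push_cast
    ring
  rw [h1, h3]
  linear_combination 2 * h4

lemma gg_norm {k : ZMod M} (hk : k ≠ 0) :
    ‖gg k‖ ≤ (M : ℝ) ^ 2 / Real.pi * (1 / k.val + 1 / (M - k.val : ℝ)) := by
  have hM0 : (0 : ℝ) < M := by exact_mod_cast NeZero.pos M
  have hpi := Real.pi_pos
  have hk0 : 0 < k.val := by
    rw [Nat.pos_iff_ne_zero]
    intro h
    exact hk ((ZMod.val_eq_zero k).mp h)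
  have hkM : k.val < M := ZMod.val_lt k
  have hk0' : (0 : ℝ) < k.val := by exact_mod_cast hk0
  have hkM' : (k.val : ℝ) < M := by exact_mod_cast hkM
  set y : ℝ := Real.pi * k.val / M with hy
  have hy0 : 0 < y := by positivity
  have hy1 : y < Real.pi := by
    rw [hy, div_lt_iff₀ hM0]
    exact mul_lt_mul_of_pos_left hkM' hpi
  have hz : (ZMod.stdAddChar (-k) : ℂ) = Complex.exp (-(2 * y * Complex.I)) := by
    have e1 : (-k : ZMod M) = ((-(k.val : ℤ) : ℤ) : ZMod M) := by
      push_cast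
      rw [ZMod.natCast_val, ZMod.cast_id]
    rw [e1, ZMod.stdAddChar_coe, hy]
    congr 1
    push_cast
    ring
  have h1 := norm_ratio hy0 hy1 _ hz
  have h2 := congrArg norm (gg_eq hk)
  rw [norm_mul, norm_mul, Complex.norm_natCast] at h2
  have hz1 : 0 < ‖(ZMod.stdAddChar (-k) - 1 : ℂ)‖ := by
    rw [norm_pos_iff]
    intro h
    rw [sub_eq_zero] at h
    have h2 : (ZMod.stdAddChar (-k) : ℂ) = ZMod.stdAddChar (0 : ZMod M) := by
      rw [AddChar.map_zero_eq_one]; exact h
    have h3 := ZMod.injective_stdAddChar h2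
    exact hk (neg_eq_zero.mp h3)
  have h3 : ‖gg k‖ ≤ M * (1 / y + 1 / (Real.pi - y)) := by
    rw [← mul_le_mul_iff_right₀ hz1, h2]
    calc (M : ℝ) * ‖(ZMod.stdAddChar (-k) + 1 : ℂ)‖ ≤
          M * (‖(ZMod.stdAddChar (-k) - 1 : ℂ)‖ * (1 / y + 1 / (Real.pi - y))) :=
          mul_le_mul_of_nonneg_left h1 hM0.le
      _ = _ := by ring
  refine h3.trans (le_of_eq ?_)
  have h4 : Real.pi - y = Real.pi * (M - k.val) / M := by rw [hy]; field_simp
  have h5 : (M - k.val : ℝ) ≠ 0 := by linarith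
  rw [h4, hy]
  field_simp

lemma sum_inv_le : ∑ n ∈ range M, (if n = 0 then (0 : ℝ) else 1 / (n : ℝ) + 1 / (M - n : ℝ)) ≤
    2 * (1 + Real.log M) := by
  have hM0 : 0 < M := NeZero.pos M
  have h0 : ∀ n ∈ range M, (if n = 0 then (0 : ℝ) else 1 / (n : ℝ) + 1 / (M - n : ℝ)) =
      (if n = 0 then (0 : ℝ) else 1 / (n : ℝ)) + (if n = 0 then (0 : ℝ) else 1 / (M - n : ℝ)) := by
    intro n _
    split_ifs <;> simp
  rw [sum_congr rfl h0, sum_add_distrib]
  have e1 : ∑ n ∈ range M, (if n = 0 then (0 : ℝ) else 1 / (n : ℝ)) =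
      ∑ n ∈ Icc 1 (M - 1), 1 / (n : ℝ) := by
    rw [← sum_filter_ne_zero (s := range M), ← sum_filter_ne_zero (s := Icc 1 (M - 1))]
    apply sum_congr
    · ext n
      simp only [mem_filter, mem_range, mem_Icc]
      constructor
      · rintro ⟨h1, h2⟩
        rw [if_neg (by rintro rfl; simp at h2)] at h2
        have : n ≠ 0 := by rintro rfl; simp at h2
        exact ⟨⟨by omega, by omega⟩, h2⟩
      · rintro ⟨⟨h1, h2⟩, h3⟩
        rw [if_neg (by omega)]
        exact ⟨by omega, h3⟩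
    · intro n hn
      rw [mem_filter, mem_Icc] at hn
      rw [if_neg (by omega)]
  have e2 : ∑ n ∈ range M, (if n = 0 then (0 : ℝ) else 1 / (M - n : ℝ)) =
      ∑ n ∈ Icc 1 (M - 1), 1 / (n : ℝ) := by
    rw [← e1]
    have h1 : ∀ n ∈ range M, (if n = 0 then (0 : ℝ) else 1 / (M - n : ℝ)) =
        (fun j : ℕ => if j = 0 then (0 : ℝ) else 1 / (j : ℝ)) ((M - n) % M) := by
      intro n hn
      rw [mem_range] at hn
      simp only
      split_ifs with h2 h3 h3
      · rfl
      · rw [h2] at h3; simp at h3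
      · rw [Nat.mod_eq_of_lt (by omega)] at h3; omega
      · rw [Nat.mod_eq_of_lt (by omega), Nat.cast_sub hn.le]
    rw [sum_congr rfl h1]
    apply sum_nbij' (fun n => (M - n) % M) (fun n => (M - n) % M)
    · intro n _; rw [mem_range]; exact Nat.mod_lt _ hM0
    · intro n _; rw [mem_range]; exact Nat.mod_lt _ hM0
    · intro n hn
      rw [mem_range] at hn
      rcases Nat.eq_zero_or_pos n with h | h
      · subst h; simp
      · rw [Nat.mod_eq_of_lt (by omega : M - n < M), Nat.mod_eq_of_lt (by omega)]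
        omega
    · intro n hn
      rw [mem_range] at hn
      rcases Nat.eq_zero_or_pos n with h | h
      · subst h; simp
      · rw [Nat.mod_eq_of_lt (by omega : M - n < M), Nat.mod_eq_of_lt (by omega)]
        omega
    · intro n _; rfl
  rw [e1, e2]
  have h5 := harmonic_le_one_add_log (M - 1)
  rw [harmonic_eq_sum_Icc] at h5
  push_cast at h5
  have h6 : Real.log ((M - 1 : ℕ) : ℝ) ≤ Real.log M := by
    rcases Nat.eq_zero_or_pos (M - 1) with h | h
    · rw [h, Nat.cast_zero, Real.log_zero]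
      exact Real.log_natCast_nonneg M
    · apply Real.log_le_log (by exact_mod_cast h)
      have : M - 1 ≤ M := by omega
      exact_mod_cast this
  have h7 : ∑ k ∈ Icc 1 (M - 1), 1 / (k : ℝ) = ∑ k ∈ Icc 1 (M - 1), ((k : ℝ))⁻¹ := by
    simp [one_div]
  rw [h7]
  linarith

/-- `|∑ χ(t) (2t - M)| ≤ 2 M √M (1 + log M) / π` -/
theorem Sw_bound {χ : DirichletCharacter ℂ M} (hχ : χ.IsPrimitive) (hM1 : 1 < M) :
    ‖Sw χ‖ ≤ 2 * M * √M / Real.pi * (1 + Real.log M) := by
  have : Fact (1 < M) := ⟨hM1⟩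
  have hM0 : (0 : ℝ) < M := by exact_mod_cast NeZero.pos M
  have hpi := Real.pi_pos
  set τ := gaussSum χ (ZMod.stdAddChar : AddChar (ZMod M) ℂ) with hτ
  have hτn : ‖τ‖ = √M := by
    rw [← norm_sq_gaussSum hχ, Real.sqrt_sq (norm_nonneg _)]
  have h3 := SS_expand hχ 1
  rw [map_one, one_mul] at h3
  have h4 : ∑ t : ZMod M, χ t * (saw (t * 1) : ℂ) = Sw χ := by
    unfold Sw; simp
  rw [h4] at h3
  have h5 : (M : ℝ) * ‖Sw χ‖ ≤ ∑ k : ZMod M, (if k = 0 then 0 else ‖gg k‖) * √M := by
    have h6 := congrArg norm h3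
    rw [norm_mul, Complex.norm_natCast] at h6
    rw [h6]
    refine (norm_sum_le _ _).trans (sum_le_sum fun k _ => ?_)
    rw [norm_mul, norm_mul, ← hτ, hτn, ← mul_assoc]
    apply mul_le_mul_of_nonneg_right _ (Real.sqrt_nonneg _)
    split_ifs with hk
    · rw [hk, MulChar.map_zero]; simp
    · exact mul_le_of_le_one_right (norm_nonneg _) (DirichletCharacter.norm_le_one _ _)
  have h6 : ∑ k : ZMod M, (if k = 0 then 0 else ‖gg k‖) * √M ≤
      ((M : ℝ) ^ 2 / Real.pi * (2 * (1 + Real.log M))) * √M := by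
    rw [← sum_mul]
    apply mul_le_mul_of_nonneg_right _ (Real.sqrt_nonneg _)
    calc ∑ k : ZMod M, (if k = 0 then 0 else ‖gg k‖) ≤
          ∑ k : ZMod M, (M : ℝ) ^ 2 / Real.pi *
            (if k.val = 0 then 0 else 1 / (k.val : ℝ) + 1 / (M - k.val : ℝ)) := by
          apply sum_le_sum
          intro k _
          by_cases hk : k = 0
          · rw [if_pos hk, if_pos (by rw [hk, ZMod.val_zero]), mul_zero]
          · rw [if_neg hk, if_neg (fun h => hk ((ZMod.val_eq_zero k).mp h))]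
            exact gg_norm hk
      _ = (M : ℝ) ^ 2 / Real.pi * ∑ n ∈ range M,
            (if n = 0 then (0 : ℝ) else 1 / (n : ℝ) + 1 / (M - n : ℝ)) := by
          rw [← mul_sum]
          congr 1
          apply sum_nbij' (fun b : ZMod M => b.val) (fun n : ℕ => (n : ZMod M))
          · intro b _; rw [mem_range]; exact ZMod.val_lt b
          · intro n _; exact mem_univ _
          · intro b _; simp
          · intro n hn; rw [mem_range] at hn; exact ZMod.val_cast_of_lt hn
          · intro b _; rfl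
      _ ≤ _ := mul_le_mul_of_nonneg_left sum_inv_le (by positivity)
  have h7 := h5.trans h6
  rw [← mul_le_mul_iff_right₀ hM0]
  refine h7.trans (le_of_eq ?_)
  ring

end Pool.Agent.Run7.h97.GB
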