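import Mathlib
import Pool.Agent.Run7.h97.GB.Bound
import Pool.Agent.Run7.h97.GO.Alg

/-!
# Reductions of the first generalised Bernoulli number modulo the primes above `p`
-/

set_option autoImplicit false

open Finset NumberField

namespace Pool.Agent.Run7.h97.GB

open Pool.Agent.H916R2 (saw SS saw_zero)

section Primes

variable {p : ℕ} [hp : Fact p.Prime] {K : Type} [Field K] [NumberField K]

/-- at most `f` homomorphisms to the algebraic closure have a given kernel of norm `p ^ f` -/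
theorem fiber_dvd (P : Ideal (𝓞 K)) (hP : P ≠ ⊥) (B : Finset (𝓞 K →+* AlgebraicClosure (ZMod p)))
    (hB : ∀ π ∈ B, RingHom.ker π = P) : p ^ #B ∣ Ideal.absNorm P := by
  classical
  rcases B.eq_empty_or_nonempty with rfl | ⟨π0, h0⟩
  · simp
  have hfin : Finite (𝓞 K ⧸ P) := Ideal.finiteQuotientOfFreeOfNeBot P hP
  have hlift : ∀ π ∈ B, ∀ a ∈ P, π a = 0 := fun π hπ a ha => by
    rwa [← hB π hπ, RingHom.mem_ker] at ha
  have hinj : Function.Injective (Ideal.Quotient.lift P π0 (hlift π0 h0)) := by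
    rw [injective_iff_map_eq_zero]
    intro x hx
    obtain ⟨y, rfl⟩ := Ideal.Quotient.mk_surjective x
    rw [Ideal.Quotient.lift_mk, ← RingHom.mem_ker, hB π0 h0] at hx
    exact Ideal.Quotient.eq_zero_iff_mem.mpr hx
  have hc : CharP (𝓞 K ⧸ P) p := RingHom.charP _ hinj p
  let _ : Algebra (ZMod p) (𝓞 K ⧸ P) := ZMod.algebra _ p
  have hcomm : ∀ L : (𝓞 K ⧸ P) →+* AlgebraicClosure (ZMod p), ∀ r : ZMod p,
      L (algebraMap (ZMod p) (𝓞 K ⧸ P) r) = algebraMap (ZMod p) (AlgebraicClosure (ZMod p)) r := by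
    intro L r
    have : L.comp (algebraMap (ZMod p) (𝓞 K ⧸ P)) = algebraMap (ZMod p) (AlgebraicClosure (ZMod p)) :=
      RingHom.ext_zmod _ _
    exact congrArg (fun f : ZMod p →+* AlgebraicClosure (ZMod p) => f r) this
  let Φ : B → ((𝓞 K ⧸ P) →ₐ[ZMod p] AlgebraicClosure (ZMod p)) := fun π =>
    { Ideal.Quotient.lift P π.1 (hlift π.1 π.2) with
      commutes' := hcomm (Ideal.Quotient.lift P π.1 (hlift π.1 π.2)) }
  have hΦ : Function.Injective Φ := by
    intro π π' h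
    ext x
    have h2 := congrArg (fun f : (𝓞 K ⧸ P) →ₐ[ZMod p] AlgebraicClosure (ZMod p) =>
      f (Ideal.Quotient.mk P x)) h
    exact h2
  have h1 : #B ≤ Module.finrank (ZMod p) (𝓞 K ⧸ P) := by
    calc #B = Nat.card B := by simp
      _ ≤ Nat.card ((𝓞 K ⧸ P) →ₐ[ZMod p] AlgebraicClosure (ZMod p)) :=
          Nat.card_le_card_of_injective Φ hΦ
      _ ≤ _ := card_algHom_le_finrank _ _ _
  have h2 : Ideal.absNorm P = p ^ Module.finrank (ZMod p) (𝓞 K ⧸ P) := by
    rw [Ideal.absNorm_apply, Submodule.cardQuot_apply]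
    have h3 := Module.natCard_eq_pow_finrank (K := ZMod p) (V := 𝓞 K ⧸ P)
    rw [Nat.card_zmod] at h3
    exact h3
  rw [h2]
  exact pow_dvd_pow p h1

theorem ker_ne_bot (π : 𝓞 K →+* AlgebraicClosure (ZMod p)) : RingHom.ker π ≠ ⊥ := by
  intro h
  have h1 : (p : 𝓞 K) ∈ RingHom.ker π := by
    rw [RingHom.mem_ker, map_natCast, CharP.cast_eq_zero]
  rw [h, Ideal.mem_bot, Nat.cast_eq_zero] at h1
  exact hp.out.ne_zero h1

/-- an element which is killed by several homomorphisms has a norm divisible by a power of `p` -/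
theorem pow_dvd_norm (B : Finset (𝓞 K →+* AlgebraicClosure (ZMod p))) (S : 𝓞 K)
    (hS : ∀ π ∈ B, π S = 0) : p ^ #B ∣ (Algebra.norm ℤ S).natAbs := by
  classical
  have h1 : ∏ P ∈ B.image (fun π => RingHom.ker π), P ∣ Ideal.span {S} := by
    apply Finset.prod_primes_dvd
    · intro P hP
      rw [mem_image] at hP
      obtain ⟨π, _, rfl⟩ := hP
      have : (RingHom.ker π).IsPrime := RingHom.ker_isPrime _
      exact Ideal.prime_of_isPrime (ker_ne_bot π) this
    · intro P hP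
      rw [mem_image] at hP
      obtain ⟨π, hπ, rfl⟩ := hP
      rw [Ideal.dvd_span_singleton, RingHom.mem_ker]
      exact hS π hπ
  have h2 := map_dvd (Ideal.absNorm (S := 𝓞 K)) h1
  rw [map_prod, Ideal.absNorm_span_singleton] at h2
  refine dvd_trans ?_ h2
  rw [Finset.card_eq_sum_card_image (fun π => RingHom.ker π) B, ← Finset.prod_pow_eq_pow_sum]
  apply Finset.prod_dvd_prod_of_dvd
  intro P hP
  rw [mem_image] at hP
  obtain ⟨π, hπ, rfl⟩ := hP
  exact fiber_dvd _ (ker_ne_bot π) _ (fun π' hπ' => (mem_filter.mp hπ').2)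

end Primes

section Count

variable {p d : ℕ} [hp : Fact p.Prime] [hd0 : NeZero d] {K : Type} [Field K] [NumberField K]
  [hK : IsCyclotomicExtension {d} ℚ K]

/-- the homomorphisms `𝓞 K → 𝔽̄_p` correspond to the roots of the cyclotomic polynomial -/
theorem card_homs (hpd : ¬ p ∣ d) :
    Nat.card (𝓞 K →+* AlgebraicClosure (ZMod p)) = d.totient := by
  have hζ := IsCyclotomicExtension.zeta_spec d ℚ K
  have h1 : minpoly ℤ hζ.integralPowerBasis.gen = Polynomial.cyclotomic d ℤ := by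
    rw [hζ.integralPowerBasis_gen, ← RingOfIntegers.minpoly_coe]
    change minpoly ℤ (IsCyclotomicExtension.zeta d ℚ K) = _
    exact (Polynomial.cyclotomic_eq_minpoly hζ (NeZero.pos d)).symm
  have e1 : (𝓞 K →+* AlgebraicClosure (ZMod p)) ≃ (𝓞 K →ₐ[ℤ] AlgebraicClosure (ZMod p)) :=
    RingHom.equivIntAlgHom _ _
  have e2 : (𝓞 K →ₐ[ℤ] AlgebraicClosure (ZMod p)) ≃ _ := hζ.integralPowerBasis.liftEquiv
  have hdF : NeZero ((d : ℕ) : AlgebraicClosure (ZMod p)) := by
    constructor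
    rw [Ne, CharP.cast_eq_zero_iff (AlgebraicClosure (ZMod p)) p]
    exact hpd
  rw [Nat.card_congr (e1.trans e2)]
  have h3 : ∀ y : AlgebraicClosure (ZMod p),
      Polynomial.aeval y (minpoly ℤ hζ.integralPowerBasis.gen) = 0 ↔ y ∈ primitiveRoots d
        (AlgebraicClosure (ZMod p)) := by
    intro y
    rw [h1, mem_primitiveRoots (NeZero.pos d), Polynomial.aeval_def, ← Polynomial.eval_map,
      Polynomial.map_cyclotomic, ← Polynomial.isRoot_cyclotomic_iff]
    rfl
  obtain ⟨w, hw⟩ := HasEnoughRootsOfUnity.exists_primitiveRoot (AlgebraicClosure (ZMod p)) d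
  rw [Nat.card_congr (Equiv.subtypeEquivRight h3), Nat.card_eq_fintype_card, Fintype.card_coe,
    hw.card_primitiveRoots]

end Count

section Char

variable {K : Type} [Field K] [NumberField K] {M : ℕ} [hM : NeZero M]

/-- `∑ x χ(x)` -/
noncomputable def AA (χ : DirichletCharacter (𝓞 K) M) : 𝓞 K := ∑ x : ZMod M, (x.val : 𝓞 K) * χ x

/-- `∑ ⌊c x / M⌋ χ(x)` -/
noncomputable def TT (χ : DirichletCharacter (𝓞 K) M) (c : ℕ) : 𝓞 K :=
  ∑ x : ZMod M, ((c * x.val / M : ℕ) : 𝓞 K) * χ x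

omit [NumberField K] in
theorem AA_range (χ : DirichletCharacter (𝓞 K) M) :
    AA χ = ∑ a ∈ range M, (a : 𝓞 K) * χ (a : ZMod M) := by
  unfold AA
  apply sum_nbij' (fun b : ZMod M => b.val) (fun n : ℕ => (n : ZMod M))
  · intro b _; rw [mem_range]; exact ZMod.val_lt b
  · intro n _; exact mem_univ _
  · intro b _; simp
  · intro n hn; rw [mem_range] at hn; exact ZMod.val_cast_of_lt hn
  · intro b _; simp

omit [NumberField K] in
/-- `(c - χ(c⁻¹)) ∑ x χ(x) = M ∑ ⌊c x / M⌋ χ(x)` -/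
theorem key (χ : DirichletCharacter (𝓞 K) M) {c : ℕ} (hc : c.Coprime M) :
    ((c : 𝓞 K) - χ ((c : ZMod M)⁻¹)) * AA χ = M * TT χ c := by
  have h1 : ∀ x : ZMod M, ((c : 𝓞 K)) * (x.val : 𝓞 K) =
      (((c : ZMod M) * x).val : 𝓞 K) + M * ((c * x.val / M : ℕ) : 𝓞 K) := by
    intro x
    have h2 : ((c : ZMod M) * x).val = (c * x.val) % M := by
      rw [ZMod.val_mul, ZMod.val_natCast, Nat.mod_mul_mod]
    rw [h2, ← Nat.cast_mul, ← Nat.cast_mul, ← Nat.cast_add, Nat.mod_add_div]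
  have h3 : ∑ x : ZMod M, (((c : ZMod M) * x).val : 𝓞 K) * χ x = χ ((c : ZMod M)⁻¹) * AA χ := by
    set u := ZMod.unitOfCoprime c hc with hu
    have huc : (u : ZMod M) = c := ZMod.coe_unitOfCoprime c hc
    have hinv : ((c : ZMod M)⁻¹) = ((u⁻¹ : (ZMod M)ˣ) : ZMod M) := by
      rw [← huc, ZMod.inv_coe_unit]
    rw [← Equiv.sum_comp (Units.mulLeft u⁻¹), AA, mul_sum]
    apply sum_congr rfl
    intro y _
    rw [Units.mulLeft_apply, ← huc, Units.mul_inv_cancel_left, map_mul, huc, hinv]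
    ring
  rw [sub_mul, ← h3, AA, TT, mul_sum, mul_sum, ← sum_sub_distrib]
  apply sum_congr rfl
  intro x _
  rw [← mul_assoc, h1 x]
  ring

/-- the composite with a complex embedding -/
noncomputable def cx (φ : K →+* ℂ) (χ : DirichletCharacter (𝓞 K) M) : DirichletCharacter ℂ M :=
  χ.ringHomComp (φ.comp (algebraMap (𝓞 K) K))

omit [NumberField K] hM in
theorem cx_apply (φ : K →+* ℂ) (χ : DirichletCharacter (𝓞 K) M) (x : ZMod M) :
    cx φ χ x = φ (χ x : 𝓞 K) := rfl

omit [NumberField K] in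
theorem cx_primitive (φ : K →+* ℂ) {χ : DirichletCharacter (𝓞 K) M} (hχ : χ.IsPrimitive) :
    (cx φ χ).IsPrimitive := by
  have hinj : Function.Injective (φ.comp (algebraMap (𝓞 K) K)) :=
    φ.injective.comp RingOfIntegers.coe_injective
  have hker : (cx φ χ).toUnitHom.ker = χ.toUnitHom.ker := by
    ext u
    rw [MonoidHom.mem_ker, MonoidHom.mem_ker, Units.ext_iff, Units.ext_iff,
      MulChar.coe_toUnitHom, MulChar.coe_toUnitHom, Units.val_one, Units.val_one, cx_apply]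
    constructor
    · intro h
      apply hinj
      rw [map_one]
      exact h
    · intro h
      rw [h]
      simp
  rw [DirichletCharacter.isPrimitive_def]
  rw [DirichletCharacter.isPrimitive_def] at hχ
  have hset : (cx φ χ).conductorSet = χ.conductorSet := by
    ext m
    rw [DirichletCharacter.mem_conductorSet_iff, DirichletCharacter.mem_conductorSet_iff]
    constructor
    · intro h
      have hd := h.dvd
      rw [DirichletCharacter.factorsThrough_iff_ker_unitsMap hd] at h ⊢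
      rwa [hker] at h
    · intro h
      have hd := h.dvd
      rw [DirichletCharacter.factorsThrough_iff_ker_unitsMap hd] at h ⊢
      rwa [hker]
  unfold DirichletCharacter.conductor at hχ ⊢
  rw [hset]
  exact hχ

omit [NumberField K] in
theorem cx_odd (φ : K →+* ℂ) {χ : DirichletCharacter (𝓞 K) M} (ho : χ (-1) = -1) :
    (cx φ χ).Odd := by
  change cx φ χ (-1) = -1
  rw [cx_apply, ho]
  simp

omit [NumberField K] in
theorem cx_AA (φ : K →+* ℂ) {χ : DirichletCharacter (𝓞 K) M} (ho : χ (-1) = -1) (hM1 : 1 < M) :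
    2 * φ (AA χ : 𝓞 K) = Sw (cx φ χ) := by
  have : Fact (1 < M) := ⟨hM1⟩
  have hodd := cx_odd φ ho
  have hne : cx φ χ ≠ 1 := by
    intro h
    have h1 : cx φ χ (-1) = -1 := hodd
    rw [h, MulChar.one_apply (isUnit_one.neg)] at h1
    norm_num at h1
  have h0 := MulChar.sum_eq_zero_of_ne_one hne
  unfold Sw AA
  rw [show (φ ((∑ x : ZMod M, (x.val : 𝓞 K) * χ x : 𝓞 K) : K)) =
    ∑ x : ZMod M, (x.val : ℂ) * cx φ χ x by
      change (φ.comp (algebraMap (𝓞 K) K)) (∑ x : ZMod M, (x.val : 𝓞 K) * χ x) = _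
      rw [map_sum]
      apply sum_congr rfl
      intro x _
      rw [cx_apply, map_mul, map_natCast]
      rfl]
  have h1 : ∀ t : ZMod M, cx φ χ t * (saw t : ℂ) =
      2 * ((t.val : ℂ) * cx φ χ t) - M * cx φ χ t := by
    intro t
    unfold saw
    split_ifs with h
    · rw [h, MulChar.map_zero]; simp
    · push_cast; ring
  rw [sum_congr rfl fun t _ => h1 t, sum_sub_distrib, ← mul_sum, ← mul_sum, h0]
  ring

omit [NumberField K] in
theorem cx_norm_le (φ : K →+* ℂ) (χ : DirichletCharacter (𝓞 K) M) (x : ZMod M) :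
    ‖φ (χ x : 𝓞 K)‖ ≤ 1 := by
  rw [← cx_apply]
  exact DirichletCharacter.norm_le_one _ _

omit [NumberField K] in
theorem norm_TT {χ : DirichletCharacter (𝓞 K) M} (hχ : χ.IsPrimitive) (ho : χ (-1) = -1)
    (hM1 : 1 < M) {c : ℕ} (hc : c.Coprime M) (φ : K →+* ℂ) :
    ‖φ (TT χ c : 𝓞 K)‖ ≤ (c + 1) * √M * (1 + Real.log M) / Real.pi := by
  have hM0 : (0 : ℝ) < M := by exact_mod_cast NeZero.pos M
  have hpi := Real.pi_pos
  have h1 := congrArg (fun x : 𝓞 K => ‖φ (x : K)‖) (key χ hc)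
  simp only [map_mul, map_sub, map_natCast, norm_mul, Complex.norm_natCast] at h1
  have h2 := congrArg norm (cx_AA φ ho hM1)
  rw [norm_mul, Complex.norm_ofNat] at h2
  have h3 := Sw_bound (cx_primitive φ hχ) hM1
  have h4 : ‖(c : ℂ) - φ (χ ((c : ZMod M)⁻¹) : 𝓞 K)‖ ≤ c + 1 := by
    refine (norm_sub_le _ _).trans ?_
    rw [Complex.norm_natCast]
    linarith [cx_norm_le φ χ ((c : ZMod M)⁻¹)]
  have h5 : ‖φ (AA χ : 𝓞 K)‖ ≤ M * √M / Real.pi * (1 + Real.log M) := by
    have : 2 * ‖φ (AA χ : 𝓞 K)‖ ≤ 2 * (M * √M / Real.pi * (1 + Real.log M)) := by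
      rw [h2]
      refine h3.trans (le_of_eq ?_)
      ring
    linarith
  have h6 : (M : ℝ) * ‖φ (TT χ c : 𝓞 K)‖ ≤ (c + 1) * (M * √M / Real.pi * (1 + Real.log M)) := by
    rw [← h1]
    exact mul_le_mul h4 h5 (norm_nonneg _) (by positivity)
  rw [← mul_le_mul_iff_right₀ hM0]
  refine h6.trans (le_of_eq ?_)
  ring

omit [NumberField K] in
theorem TT_ne {χ : DirichletCharacter (𝓞 K) M} (hχ : χ.IsPrimitive) (ho : χ (-1) = -1)
    (hM1 : 1 < M) {c : ℕ} (hc : c.Coprime M) (hc2 : 2 ≤ c) (φ : K →+* ℂ) :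
    TT χ c ≠ 0 := by
  intro h
  have h1 := congrArg (fun x : 𝓞 K => φ (x : K)) (key χ hc)
  rw [h] at h1
  simp only [map_mul, map_sub, map_natCast, map_zero, mul_zero] at h1
  have h2 := cx_AA φ ho hM1
  have h3 := Sw_ne (cx_primitive φ hχ) (cx_odd φ ho)
  rcases mul_eq_zero.mp h1 with h4 | h4
  · have h5 : ‖(c : ℂ)‖ ≤ 1 := by
      rw [sub_eq_zero] at h4
      have h6 : (c : ℂ) = φ (χ ((c : ZMod M)⁻¹) : 𝓞 K) := h4
      rw [h6]
      exact cx_norm_le φ χ _
    rw [Complex.norm_natCast] at h5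
    have : (2 : ℝ) ≤ c := by exact_mod_cast hc2
    linarith
  · apply h3
    rw [← h2]
    have h5 : φ (AA χ : 𝓞 K) = 0 := h4
    rw [h5, mul_zero]

end Char

end Pool.Agent.Run7.h97.GB
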