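import Mathlib
import Pool.Agent.Run7.h97.GB.Alg

/-!
# The number of non-units among the reductions of the first generalised Bernoulli number
-/

set_option autoImplicit false

open Finset NumberField Filter

namespace Pool.Agent.Run7.h97.GB

/-- the first generalised Bernoulli number `(∑ a χ(a)) / M` -/
noncomputable def B1 {K : Type} [Field K] {M : ℕ} (χ : DirichletCharacter (𝓞 K) M) : K :=
  (∑ a ∈ range M, (a : K) * ((χ (a : ZMod M) : 𝓞 K) : K)) / M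

/-- `z = x / y` with `π x ≠ 0` and `π y ≠ 0` -/
def UnitAt {p : ℕ} [Fact p.Prime] {K : Type} [Field K] (π : 𝓞 K →+* AlgebraicClosure (ZMod p))
    (z : K) : Prop :=
  ∃ x y : 𝓞 K, π x ≠ 0 ∧ π y ≠ 0 ∧ z * (y : K) = (x : K)

/-- the set of the reductions `π` for which `a ↦ a π(χ(a))` is not trivial and `B1 χ` is not a unit -/
def bad (p : ℕ) [Fact p.Prime] {K : Type} [Field K] {M : ℕ} (χ : DirichletCharacter (𝓞 K) M) :
    Set (𝓞 K →+* AlgebraicClosure (ZMod p)) :=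
  {π | (∃ a : ℕ, a.Coprime M ∧ (a : AlgebraicClosure (ZMod p)) * π (χ (a : ZMod M)) ≠ 1) ∧
    ¬ UnitAt π (B1 χ)}

section

variable {p : ℕ} [hp : Fact p.Prime] {K : Type} [Field K] [NumberField K] {M : ℕ} [hM : NeZero M]

theorem B1_eq (χ : DirichletCharacter (𝓞 K) M) : B1 χ * M = (AA χ : 𝓞 K) := by
  have hM0 : (M : K) ≠ 0 := Nat.cast_ne_zero.mpr (NeZero.ne M)
  unfold B1
  rw [div_mul_cancel₀ _ hM0, AA_range]
  change _ = algebraMap (𝓞 K) K (∑ a ∈ range M, (a : 𝓞 K) * χ (a : ZMod M))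
  rw [map_sum]
  apply sum_congr rfl
  intro a _
  rw [map_mul, map_natCast (algebraMap (𝓞 K) K)]

theorem B1_key (χ : DirichletCharacter (𝓞 K) M) {c : ℕ} (hc : c.Coprime M) :
    B1 χ * (((c : 𝓞 K) - χ ((c : ZMod M)⁻¹) : 𝓞 K) : K) = (TT χ c : 𝓞 K) := by
  have hM0 : (M : K) ≠ 0 := Nat.cast_ne_zero.mpr (NeZero.ne M)
  have h1 := congrArg (algebraMap (𝓞 K) K) (key χ hc)
  rw [map_mul, map_mul, map_natCast] at h1
  have h2 := B1_eq χ
  apply mul_right_cancel₀ hM0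
  calc B1 χ * (((c : 𝓞 K) - χ ((c : ZMod M)⁻¹) : 𝓞 K) : K) * M =
        (((c : 𝓞 K) - χ ((c : ZMod M)⁻¹) : 𝓞 K) : K) * (B1 χ * M) := by ring
    _ = (((c : 𝓞 K) - χ ((c : ZMod M)⁻¹) : 𝓞 K) : K) * (AA χ : 𝓞 K) := by rw [h2]
    _ = M * (TT χ c : 𝓞 K) := h1
    _ = _ := by ring

/-- a bad reduction kills all the elements `TT χ c` -/
theorem bad_TT {χ : DirichletCharacter (𝓞 K) M} {π : 𝓞 K →+* AlgebraicClosure (ZMod p)}
    (hπ : π ∈ bad p χ) {c : ℕ} (hc : c.Coprime M) : π (TT χ c) = 0 := by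
  obtain ⟨⟨a, ha, hne⟩, hnu⟩ := hπ
  -- `π (a - χ(a⁻¹)) ≠ 0`
  set u := ZMod.unitOfCoprime a ha with hu
  have hua : (u : ZMod M) = a := ZMod.coe_unitOfCoprime a ha
  have hinv : ((a : ZMod M)⁻¹) = ((u⁻¹ : (ZMod M)ˣ) : ZMod M) := by
    rw [← hua, ZMod.inv_coe_unit]
  have hprod : χ ((a : ZMod M)⁻¹) * χ (a : ZMod M) = 1 := by
    rw [hinv, ← hua, ← map_mul, Units.inv_mul, map_one]
  have hy : π ((a : 𝓞 K) - χ ((a : ZMod M)⁻¹)) ≠ 0 := by
    intro h
    apply hne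
    have h1 := congrArg (fun z => z * π (χ (a : ZMod M))) h
    simp only [map_sub, map_natCast, sub_mul, zero_mul] at h1
    rw [← map_mul, hprod, map_one, sub_eq_zero] at h1
    exact h1
  have hx : π (TT χ a) = 0 := by
    by_contra hcon
    exact hnu ⟨TT χ a, (a : 𝓞 K) - χ ((a : ZMod M)⁻¹), hcon, hy, B1_key χ ha⟩
  have h1 : ((c : 𝓞 K) - χ ((c : ZMod M)⁻¹)) * TT χ a =
      ((a : 𝓞 K) - χ ((a : ZMod M)⁻¹)) * TT χ c := by
    apply RingOfIntegers.coe_injective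
    have e1 := B1_key χ ha
    have e2 := B1_key χ hc
    rw [map_mul, map_mul]
    change (((c : 𝓞 K) - χ ((c : ZMod M)⁻¹) : 𝓞 K) : K) * (TT χ a : 𝓞 K) =
      (((a : 𝓞 K) - χ ((a : ZMod M)⁻¹) : 𝓞 K) : K) * (TT χ c : 𝓞 K)
    rw [← e1, ← e2]
    ring
  have h2 := congrArg π h1
  rw [map_mul, map_mul, hx, mul_zero] at h2
  exact (mul_eq_zero.mp h2.symm).resolve_left hy

instance finite_homs : Finite (𝓞 K →+* AlgebraicClosure (ZMod p)) :=
  Finite.of_equiv (𝓞 K →ₐ[ℤ] AlgebraicClosure (ZMod p)) (RingHom.equivIntAlgHom _ _).symm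

/-- the main inequality -/
theorem main {χ : DirichletCharacter (𝓞 K) M} (hχ : χ.IsPrimitive) (ho : χ (-1) = -1)
    (hM1 : 1 < M) {c : ℕ} (hc : c.Coprime M) (hc2 : 2 ≤ c) :
    (p : ℝ) ^ (bad p χ).ncard ≤
      ((c + 1) * √M * (1 + Real.log M) / Real.pi) ^ (Module.finrank ℚ K) := by
  classical
  have hfin : (bad p χ).Finite := Set.toFinite _
  rw [Set.ncard_eq_toFinset_card _ hfin]
  have h1 := pow_dvd_norm hfin.toFinset (TT χ c) (fun π hπ => bad_TT (hfin.mem_toFinset.mp hπ) hc)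
  have hne : TT χ c ≠ 0 := by
    obtain ⟨φ⟩ : Nonempty (K →+* ℂ) := inferInstance
    exact TT_ne hχ ho hM1 hc hc2 φ
  have h2 : 0 < (Algebra.norm ℤ (TT χ c)).natAbs := by
    rw [Int.natAbs_pos]
    exact Algebra.norm_ne_zero_iff.mpr hne
  have h3 := Nat.le_of_dvd h2 h1
  have h4 : (p : ℝ) ^ hfin.toFinset.card ≤ ((Algebra.norm ℤ (TT χ c)).natAbs : ℝ) := by
    exact_mod_cast h3
  refine h4.trans ?_
  have h5 : (((Algebra.norm ℤ (TT χ c)).natAbs : ℕ) : ℝ) = ∏ φ : K →+* ℂ, ‖φ (TT χ c : 𝓞 K)‖ := by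
    have h1 := Algebra.norm_eq_prod_embeddings ℚ ℂ ((TT χ c : 𝓞 K) : K)
    rw [← Algebra.coe_norm_int] at h1
    have h2 := congrArg norm h1
    rw [norm_prod] at h2
    have h3 : ‖(algebraMap ℚ ℂ) ((Algebra.norm ℤ (TT χ c) : ℤ) : ℚ)‖ =
        (((Algebra.norm ℤ (TT χ c)).natAbs : ℕ) : ℝ) := by
      rw [map_intCast, Complex.norm_intCast, Nat.cast_natAbs, Int.cast_abs]
    rw [h3] at h2
    rw [h2]
    exact (Fintype.prod_equiv (RingHom.equivRatAlgHom (R := K) (S := ℂ)) _ _ (fun _ => rfl)).symm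
  rw [h5]
  calc ∏ φ : K →+* ℂ, ‖φ (TT χ c : 𝓞 K)‖ ≤
        ∏ _φ : K →+* ℂ, ((c + 1) * √M * (1 + Real.log M) / Real.pi) :=
        prod_le_prod (fun _ _ => norm_nonneg _) (fun φ _ => norm_TT hχ ho hM1 hc φ)
    _ = _ := by
        rw [prod_const, card_univ, NumberField.Embeddings.card]

end

/-- a small number prime to `M` -/
theorem exists_coprime (D e : ℝ) (he : 0 < e) : ∀ᶠ p : ℕ in atTop, ∀ M : ℕ, 1 ≤ M →
    Real.log M ≤ D * Real.log p → ∃ c : ℕ, 2 ≤ c ∧ c.Coprime M ∧ (c : ℝ) ≤ (p : ℝ) ^ e := by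
  -- `θ(x) ≥ x / 4`
  have h1 : ∀ᶠ x : ℝ in atTop, x / 4 ≤ Chebyshev.theta x := by
    have ha : ∀ᶠ x : ℝ in atTop, ‖Real.log x‖ ≤ 1 / 100 * ‖x ^ (1 / 4 : ℝ)‖ :=
      (isLittleO_log_rpow_atTop (show (0 : ℝ) < 1 / 4 by norm_num)).def (by norm_num)
    filter_upwards [ha, eventually_ge_atTop (100 : ℝ)] with x hx hx1
    have hx0 : 0 < x := by linarith
    rw [Real.norm_eq_abs, Real.norm_eq_abs, abs_of_nonneg (Real.log_nonneg (by linarith)),
      abs_of_nonneg (by positivity)] at hx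
    have h2 := Chebyshev.theta_ge' (x := x) (by linarith)
    have h3 : x ^ (1 / 4 : ℝ) ≤ √x := by
      rw [Real.sqrt_eq_rpow]
      exact Real.rpow_le_rpow_of_exponent_le (by linarith) (by norm_num)
    have hs0 : 0 ≤ √x := Real.sqrt_nonneg x
    have hs : √x * √x = x := Real.mul_self_sqrt hx0.le
    have hs1 : 10 ≤ √x := by
      rw [show (10 : ℝ) = √(100 : ℝ) by
        rw [show (100 : ℝ) = 10 ^ 2 by norm_num, Real.sqrt_sq (by norm_num)]]
      exact Real.sqrt_le_sqrt hx1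
    have h4 : Real.log x ≤ 1 / 100 * √x := hx.trans (by linarith)
    have h5 : Real.log (x + 2) ≤ Real.log x + 1 / 10 := by
      have : Real.log (x + 2) ≤ Real.log (x * (1 + 1 / 10)) :=
        Real.log_le_log (by linarith) (by linarith)
      rw [Real.log_mul hx0.ne' (by norm_num)] at this
      have h6 : Real.log (1 + 1 / 10 : ℝ) ≤ 1 / 10 := by
        have := Real.log_le_sub_one_of_pos (show (0 : ℝ) < 1 + 1 / 10 by norm_num)
        linarith
      linarith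
    have h6 : 2 * √x * Real.log x ≤ 2 / 100 * x := by
      calc 2 * √x * Real.log x ≤ 2 * √x * (1 / 100 * √x) := by gcongr
        _ = 2 / 100 * (√x * √x) := by ring
        _ = _ := by rw [hs]
    have h7 := Real.log_two_gt_d9
    have h8 : (x - 1) * (1 / 2) ≤ (x - 1) * Real.log 2 := by
      apply mul_le_mul_of_nonneg_left _ (by linarith)
      linarith
    have h9 : √x ≤ x / 10 := by nlinarith
    linarith
  have h2 : Tendsto (fun p : ℕ => (p : ℝ) ^ e) atTop atTop :=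
    (tendsto_rpow_atTop he).comp tendsto_natCast_atTop_atTop
  have h3 : ∀ᶠ p : ℕ in atTop, D * Real.log p < (p : ℝ) ^ e / 4 := by
    have h4 : ∀ᶠ x : ℝ in atTop, ‖Real.log x‖ ≤ 1 / (8 * (|D| + 1)) * ‖x ^ e‖ :=
      (isLittleO_log_rpow_atTop he).def (by positivity)
    have h5 := tendsto_natCast_atTop_atTop (R := ℝ) |>.eventually h4
    filter_upwards [h5, eventually_ge_atTop 2] with p hp hp2
    have hp0 : (0 : ℝ) < p := by exact_mod_cast (by omega : 0 < p)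
    have hp1 : (1 : ℝ) < p := by exact_mod_cast (by omega : 1 < p)
    have hlog : 0 < Real.log p := Real.log_pos hp1
    have hpe : 0 < (p : ℝ) ^ e := Real.rpow_pos_of_pos hp0 e
    rw [Real.norm_eq_abs, Real.norm_eq_abs, abs_of_pos hlog, abs_of_pos hpe] at hp
    have hD : D ≤ |D| := le_abs_self D
    have hD0 : 0 ≤ |D| := abs_nonneg D
    have h6 : (|D| + 1) * Real.log p ≤ (p : ℝ) ^ e / 8 := by
      calc (|D| + 1) * Real.log p ≤ (|D| + 1) * (1 / (8 * (|D| + 1)) * (p : ℝ) ^ e) := by gcongr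
        _ = _ := by field_simp
    nlinarith
  filter_upwards [h2.eventually h1, h3] with p hp1 hp3 M hM1 hMD
  have hM0 : (0 : ℝ) < M := by exact_mod_cast hM1
  by_contra hcon
  push Not at hcon
  set n := ⌊(p : ℝ) ^ e⌋₊ with hn
  have hpe : 0 ≤ (p : ℝ) ^ e := Real.rpow_nonneg (Nat.cast_nonneg p) e
  have h4 : primorial n ∣ M := by
    unfold primorial
    apply Finset.prod_primes_dvd
    · intro q hq
      exact (mem_filter.mp hq).2.prime
    · intro q hq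
      rw [mem_filter, mem_range] at hq
      by_contra hq2
      have h5 : q.Coprime M := (Nat.Prime.coprime_iff_not_dvd hq.2).mpr hq2
      have h6 := hcon q hq.2.two_le h5
      have h7 : (q : ℝ) ≤ n := by exact_mod_cast (by omega : q ≤ n)
      have h8 := Nat.floor_le hpe
      linarith
  have h5 := Nat.le_of_dvd hM1 h4
  have h6 : Chebyshev.theta ((p : ℝ) ^ e) ≤ Real.log M := by
    rw [Chebyshev.theta_eq_log_primorial]
    apply Real.log_le_log
    · exact_mod_cast primorial_pos n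
    · exact_mod_cast h5
  linarith

/-- the size, uniformly in the modulus -/
theorem size (δ e : ℝ) (hδ : 0 ≤ δ) (he : 0 < e) : ∀ᶠ p : ℕ in atTop, ∀ N : ℕ, 1 ≤ N →
    (N : ℝ) ≤ (p : ℝ) ^ δ → ∃ c : ℕ, 2 ≤ c ∧ c.Coprime (N * p) ∧
      (c + 1) * √((N * p : ℕ) : ℝ) * (1 + Real.log ((N * p : ℕ) : ℝ)) / Real.pi ≤
        (p : ℝ) ^ ((1 + δ) / 2 + e) := by
  have h1 := exists_coprime (1 + δ) (e / 3) (by positivity)
  have h2 : ∀ᶠ p : ℕ in atTop, 1 + (1 + δ) * Real.log p ≤ (p : ℝ) ^ (e / 3) := by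
    have h4 : ∀ᶠ x : ℝ in atTop, ‖Real.log x‖ ≤ 1 / (2 * (1 + δ)) * ‖x ^ (e / 3)‖ :=
      (isLittleO_log_rpow_atTop (by positivity)).def (by positivity)
    have h5 := tendsto_natCast_atTop_atTop (R := ℝ) |>.eventually h4
    have h6 : Tendsto (fun p : ℕ => (p : ℝ) ^ (e / 3)) atTop atTop :=
      (tendsto_rpow_atTop (by positivity)).comp tendsto_natCast_atTop_atTop
    filter_upwards [h5, h6.eventually_ge_atTop 2, eventually_ge_atTop 2] with p hp hp6 hp2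
    have hp0 : (0 : ℝ) < p := by exact_mod_cast (by omega : 0 < p)
    have hp1 : (1 : ℝ) < p := by exact_mod_cast (by omega : 1 < p)
    have hlog : 0 < Real.log p := Real.log_pos hp1
    have hpe : 0 < (p : ℝ) ^ (e / 3) := Real.rpow_pos_of_pos hp0 _
    rw [Real.norm_eq_abs, Real.norm_eq_abs, abs_of_pos hlog, abs_of_pos hpe] at hp
    have h7 : (1 + δ) * Real.log p ≤ (p : ℝ) ^ (e / 3) / 2 := by
      calc (1 + δ) * Real.log p ≤ (1 + δ) * (1 / (2 * (1 + δ)) * (p : ℝ) ^ (e / 3)) := by gcongr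
        _ = _ := by field_simp
    linarith
  have h3 : Tendsto (fun p : ℕ => (p : ℝ) ^ (e / 3)) atTop atTop :=
    (tendsto_rpow_atTop (by positivity)).comp tendsto_natCast_atTop_atTop
  filter_upwards [h1, h2, h3.eventually_ge_atTop 1, eventually_ge_atTop 2] with p h1 h2 h3 hp2 N hN hNδ
  have hp0 : (0 : ℝ) < p := by exact_mod_cast (by omega : 0 < p)
  have hp1 : (1 : ℝ) < p := by exact_mod_cast (by omega : 1 < p)
  have hlog : 0 < Real.log p := Real.log_pos hp1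
  have hN0 : (0 : ℝ) < N := by exact_mod_cast hN
  have hNp : ((N * p : ℕ) : ℝ) ≤ (p : ℝ) ^ (1 + δ) := by
    rw [add_comm, Real.rpow_add hp0, Real.rpow_one, Nat.cast_mul]
    gcongr
  have hNp0 : (0 : ℝ) < ((N * p : ℕ) : ℝ) := by
    rw [Nat.cast_mul]; positivity
  have hlogNp : Real.log ((N * p : ℕ) : ℝ) ≤ (1 + δ) * Real.log p := by
    rw [← Real.log_rpow hp0]
    exact Real.log_le_log hNp0 hNp
  obtain ⟨c, hc2, hcc, hce⟩ := h1 (N * p) (Nat.mul_pos hN (by omega)) hlogNp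
  refine ⟨c, hc2, hcc, ?_⟩
  have hsq : √((N * p : ℕ) : ℝ) ≤ (p : ℝ) ^ ((1 + δ) / 2) := by
    rw [Real.sqrt_eq_rpow, show (1 + δ) / 2 = (1 + δ) * (1 / 2) by ring, Real.rpow_mul hp0.le]
    exact Real.rpow_le_rpow hNp0.le hNp (by norm_num)
  have hpi := Real.pi_gt_three
  have hlog0 : 0 ≤ Real.log ((N * p : ℕ) : ℝ) := Real.log_natCast_nonneg _
  have h7 : (c + 1 : ℝ) ≤ 2 * (p : ℝ) ^ (e / 3) := by linarith
  calc (c + 1) * √((N * p : ℕ) : ℝ) * (1 + Real.log ((N * p : ℕ) : ℝ)) / Real.pi ≤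
        (2 * (p : ℝ) ^ (e / 3)) * (p : ℝ) ^ ((1 + δ) / 2) * (p : ℝ) ^ (e / 3) / 2 := by
        gcongr
        · linarith
        · linarith
    _ = (p : ℝ) ^ ((1 + δ) / 2) * ((p : ℝ) ^ (e / 3) * (p : ℝ) ^ (e / 3)) * 1 := by ring
    _ ≤ (p : ℝ) ^ ((1 + δ) / 2) * ((p : ℝ) ^ (e / 3) * (p : ℝ) ^ (e / 3)) * (p : ℝ) ^ (e / 3) := by
        gcongr
    _ = (p : ℝ) ^ ((1 + δ) / 2 + e) := by
        rw [mul_assoc, ← Real.rpow_add hp0, ← Real.rpow_add hp0, ← Real.rpow_add hp0]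
        congr 1
        ring

/-- uniformly for `N ≤ p ^ δ` -/
theorem eps (δ e : ℝ) (hδ : 0 ≤ δ) (he : 0 < e) : ∃ P : ℕ, ∀ (p : ℕ) [Fact p.Prime], P ≤ p →
    ∀ N : ℕ, 1 ≤ N → (N : ℝ) ≤ (p : ℝ) ^ δ → ∀ (K : Type) [Field K] [NumberField K]
      (χ : DirichletCharacter (𝓞 K) (N * p)), χ.IsPrimitive → χ (-1) = -1 →
        ((bad p χ).ncard : ℝ) ≤ ((1 + δ) / 2 + e) * Module.finrank ℚ K := by
  obtain ⟨P, hP⟩ := eventually_atTop.1 (size δ e hδ he)
  refine ⟨P, ?_⟩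
  intro p hp hPp N hN hNδ K _ _ χ hχ ho
  obtain ⟨c, hc2, hcc, hle⟩ := hP p hPp N hN hNδ
  have hpp : p.Prime := hp.out
  have hNp : 1 < N * p := by
    calc 1 < p := hpp.one_lt
      _ ≤ N * p := Nat.le_mul_of_pos_left p hN
  have : NeZero (N * p) := ⟨by omega⟩
  have h1 := main (p := p) hχ ho hNp hcc hc2
  have hp0 : (0 : ℝ) < p := by exact_mod_cast hpp.pos
  have hp1 : (1 : ℝ) < p := by exact_mod_cast hpp.one_lt
  have hpi := Real.pi_pos
  have hlog0 : 0 ≤ Real.log ((N * p : ℕ) : ℝ) := Real.log_natCast_nonneg _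
  have h2 : (p : ℝ) ^ (bad p χ).ncard ≤ ((p : ℝ) ^ ((1 + δ) / 2 + e)) ^ (Module.finrank ℚ K) :=
    h1.trans (pow_le_pow_left₀ (by positivity) hle _)
  rw [← Real.rpow_natCast, ← Real.rpow_natCast ((p : ℝ) ^ ((1 + δ) / 2 + e)),
    ← Real.rpow_mul hp0.le, Real.rpow_le_rpow_left_iff hp1] at h2
  exact h2

/-- for a fixed degree -/
theorem fixed (N n : ℕ) (hN : 1 ≤ N) : ∃ P : ℕ, ∀ (p : ℕ) [Fact p.Prime], P ≤ p →
    ∀ (K : Type) [Field K] [NumberField K] (χ : DirichletCharacter (𝓞 K) (N * p)),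
      Module.finrank ℚ K = n → χ.IsPrimitive → χ (-1) = -1 → 2 * (bad p χ).ncard ≤ n := by
  set e : ℝ := 1 / (8 * (n + 1)) with he
  have he0 : 0 < e := by positivity
  obtain ⟨P, hP⟩ := eps e e he0.le he0
  have h3 : Tendsto (fun p : ℕ => (p : ℝ) ^ e) atTop atTop :=
    (tendsto_rpow_atTop he0).comp tendsto_natCast_atTop_atTop
  obtain ⟨P', hP'⟩ := eventually_atTop.1 (h3.eventually_ge_atTop (N : ℝ))
  refine ⟨max P P', ?_⟩
  intro p hp hPp K _ _ χ hn hχ ho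
  have h1 := hP p ((le_max_left _ _).trans hPp) N hN (hP' p ((le_max_right _ _).trans hPp)) K χ hχ ho
  rw [hn] at h1
  have h2 : (2 * (bad p χ).ncard : ℝ) < n + 1 := by
    have h4 : ((1 + e) / 2 + e) * n = n / 2 + 3 / 2 * (e * n) := by ring
    have h5 : e * n < 1 / 8 := by
      rw [he, div_mul_eq_mul_div, div_lt_div_iff₀ (by positivity) (by norm_num)]
      linarith
    rw [h4] at h1
    linarith
  have h6 : 2 * (bad p χ).ncard < n + 1 := by exact_mod_cast h2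
  omega

end Pool.Agent.Run7.h97.GB
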